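import Pool.Agent.H567.PP.Stm4
import Pool.Agent.H567.HW.Pr7

/-!
Project PP, part 26: the mean square of the error, every modulus (`S_CVU`).
-/

set_option autoImplicit false

namespace Pool.Agent.H295.PP

open Finset
open Pool.Agent.Y883.GJ
open Pool.Agent.R460.GS (BdAt NcAt MinAt ShAt bd_LA bd_sq nonu)
open Pool.Agent.H807R2.Dav (ee)
open Pool.Agent.Y614.GJ.Core (P P_nonneg P_le q_le_phi ev_log)
open Pool.Agent.H567.HW
open Pool.Agent.H567.PP

/-- the sums over the classes of a window -/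
lemma cvu_cl {q Q V : ℕ} [NeZero q] (β : ℝ) (l : ZMod q) : cl q Q (fun b => LA (V + b)) β l =
      ee (-(V * β)) * (cl q (V + Q) LA β (l + (V : ZMod q)) - cl q V LA β (l + (V : ZMod q))) := by
  unfold cl
  have e1 : (Icc 1 (V + Q)).filter (fun n : ℕ => (n : ZMod q) = l + (V : ZMod q)) =
      (Icc 1 V).filter (fun n : ℕ => (n : ZMod q) = l + (V : ZMod q)) ∪
      (Ioc V (V + Q)).filter (fun n : ℕ => (n : ZMod q) = l + (V : ZMod q)) := by
    rw [← filter_union]
    congr 1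
    ext n
    simp only [mem_union, mem_Icc, mem_Ioc]
    omega
  have hdis : Disjoint ((Icc 1 V).filter (fun n : ℕ => (n : ZMod q) = l + (V : ZMod q)))
      ((Ioc V (V + Q)).filter (fun n : ℕ => (n : ZMod q) = l + (V : ZMod q))) := by
    rw [disjoint_left]
    intro n hn hn'
    rw [mem_filter, mem_Icc] at hn
    rw [mem_filter, mem_Ioc] at hn'
    omega
  rw [e1, sum_union hdis, add_sub_cancel_left, mul_sum]
  apply sum_bij (fun b _ => V + b)
  · intro b hb
    rw [mem_filter, mem_Icc] at hb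
    rw [mem_filter, mem_Ioc]
    refine ⟨by omega, ?_⟩
    push_cast
    rw [hb.2, add_comm]
  · intro b _ b' _ h
    simpa using h
  · intro n hn
    rw [mem_filter, mem_Ioc] at hn
    refine ⟨n - V, ?_, by omega⟩
    rw [mem_filter, mem_Icc]
    refine ⟨by omega, ?_⟩
    rw [Nat.cast_sub (by omega), hn.2]
    ring
  · intro b _
    have e2 : ee (b * β) = ee (-(V * β)) * ee (((V + b : ℕ) : ℝ) * β) := by
      rw [← Pool.Agent.H807R2.Dav.ee_add]
      congr 1
      push_cast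
      ring
    rw [e2]
    ring

/-- the correlation with a shifted character, a window -/
lemma cvu_sh {q Q V : ℕ} [NeZero q] (β : ℝ) (χ : DirichletCharacter ℂ q) (a : ZMod q) :
    ‖∑ l : ZMod q, cl q Q (fun b => LA (V + b)) β l * χ (a - l)‖ ≤
      ‖∑ l : ZMod q, cl q (V + Q) LA β l * χ (a + (V : ZMod q) - l)‖ +
      ‖∑ l : ZMod q, cl q V LA β l * χ (a + (V : ZMod q) - l)‖ := by
  have h2 : ∀ f : ZMod q → ℂ, ∑ l : ZMod q, f (l + (V : ZMod q)) = ∑ l : ZMod q, f l := by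
    intro f
    exact Equiv.sum_comp (Equiv.addRight (V : ZMod q)) f
  have e : ∑ l : ZMod q, cl q Q (fun b => LA (V + b)) β l * χ (a - l) =
      ee (-(V * β)) * (∑ l : ZMod q, cl q (V + Q) LA β l * χ (a + (V : ZMod q) - l) -
        ∑ l : ZMod q, cl q V LA β l * χ (a + (V : ZMod q) - l)) := by
    rw [← h2 (fun l => cl q (V + Q) LA β l * χ (a + (V : ZMod q) - l)),
      ← h2 (fun l => cl q V LA β l * χ (a + (V : ZMod q) - l)), ← sum_sub_distrib, mul_sum]
    refine sum_congr rfl fun l _ => ?_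
    rw [cvu_cl]
    have e3 : a + (V : ZMod q) - (l + (V : ZMod q)) = a - l := by ring
    rw [e3]
    ring
  rw [e, norm_mul, Pool.Agent.H807R2.Dav.norm_ee, one_mul]
  exact norm_sub_le _ _

/-- the classes of the lifted moduli -/
lemma cvu_mod {q j a V : ℕ} [NeZero q] (a' : ZMod ((j + 1) * q))
    (h : ((a'.val : ℕ) : ZMod q) = (a : ZMod q) - (V : ZMod q)) :
    (a' + (V : ZMod ((j + 1) * q))).val % q = a % q := by
  rw [← Nat.ModEq, ← ZMod.natCast_eq_natCast_iff]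
  have hd : q ∣ (j + 1) * q := Nat.dvd_mul_left q (j + 1)
  have h1 : ∀ x : ZMod ((j + 1) * q), ((x.val : ℕ) : ZMod q) = ZMod.castHom hd (ZMod q) x := by
    intro x
    rw [ZMod.castHom_apply, ZMod.natCast_val]
  rw [h1, map_add, ← h1, h, map_natCast]
  ring

theorem cvu (hcore : S_COREU) (hshl : S_SHL2) : S_CVU := by
  classical
  intro A D ρ hρ
  have hρ2 : 0 < ρ / 2 := by positivity
  obtain ⟨C₁, N₁, hmin⟩ := minLA (A + 2 * D + 11) hρ2
  obtain ⟨C, hCd⟩ : ∃ C, C = C₁ + 1 := ⟨_, rfl⟩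
  obtain ⟨A₁, hA₁⟩ : ∃ A₁, A₁ = A + 2 * C + 9 := ⟨_, rfl⟩
  obtain ⟨C₃, B₁, hB₁⟩ := goodW (A₁ + 4) C hρ2
  obtain ⟨B₂, hB₂⟩ := nonW (A₁ + 2) hρ2
  obtain ⟨B₃, hB₃⟩ := largeW (2 * (C₃ + A₁ + 4)) C hρ2
  obtain ⟨Ks, Ns, hs⟩ := hshl (2 * C₃ + A₁ + 3 + D + 1) (C + D + 1) (1 / 30) (by norm_num)
  refine ⟨2 * (C₃ + A₁ + 4) + 2, Ks + 1, C, fun K => ?_⟩
  obtain ⟨B₄, hB₄⟩ := smallW (2 * (C₃ + A₁ + 4)) C (K + 1) hρ2
  refine ⟨max (max B₁ B₂) (max B₃ B₄), fun E => ?_⟩
  obtain ⟨Y₁, hY₁⟩ := hB₁ E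
  obtain ⟨Y₂, hY₂⟩ := hB₂ E
  obtain ⟨Y₃, hY₃⟩ := hB₃ E
  obtain ⟨Y₄, hY₄⟩ := hB₄ E
  obtain ⟨Y₅, hY₅⟩ := envW 1 (max (max 2000 (3 ^ C₁)) (max (3 ^ K) (2 ^ Ks))) hρ
  obtain ⟨Y₆, hY₆⟩ := Filter.eventually_atTop.1 (ev_log C (s := ρ / 2) hρ2 2000)
  obtain ⟨M, hM⟩ : ∃ M, M = N₁ + Ns + 1 := ⟨_, rfl⟩
  refine ⟨max (max (max Y₁ Y₂) (max Y₃ Y₄)) (max (max Y₅ Y₆) (M ^ 3)),
    fun Y hY z hz1 hz2 q Q V _ hqQ hQY hVY hVQ a hreg => ?_⟩
  have hYY₁ : Y₁ ≤ Y := le_trans (le_trans (le_trans (le_max_left _ _) (le_max_left _ _)) (le_max_left _ _)) hY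
  have hYY₂ : Y₂ ≤ Y := le_trans (le_trans (le_trans (le_max_right _ _) (le_max_left _ _)) (le_max_left _ _)) hY
  have hYY₃ : Y₃ ≤ Y := le_trans (le_trans (le_trans (le_max_left _ _) (le_max_right _ _)) (le_max_left _ _)) hY
  have hYY₄ : Y₄ ≤ Y := le_trans (le_trans (le_trans (le_max_right _ _) (le_max_right _ _)) (le_max_left _ _)) hY
  have hYY₅ : Y₅ ≤ Y := le_trans (le_trans (le_trans (le_max_left _ _) (le_max_left _ _)) (le_max_right _ _)) hY
  have hYY₆ : Y₆ ≤ Y := le_trans (le_trans (le_trans (le_max_right _ _) (le_max_left _ _)) (le_max_right _ _)) hY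
  have hYM : M ^ 3 ≤ Y := le_trans (le_trans (le_max_right _ _) (le_max_right _ _)) hY
  have hq : 1 ≤ q := Nat.pos_of_ne_zero (NeZero.ne q)
  obtain ⟨hY1, hQ1, hLm, hLY, hl6, -, -, -⟩ := hY₅ Y hYY₅ q Q hq hqQ hQY
  obtain ⟨-, hLC⟩ := hY₆ Y hYY₆
  have hY0 : (0 : ℝ) < Y := by exact_mod_cast hY1
  have hYr1 : (1 : ℝ) ≤ Y := by exact_mod_cast hY1
  have hQ0 : (0 : ℝ) < Q := by exact_mod_cast hQ1
  have hQr1 : (1 : ℝ) ≤ Q := by exact_mod_cast hQ1
  have hQYr : (Q : ℝ) ≤ Y := by exact_mod_cast hQY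
  have hq1 : (1 : ℝ) ≤ q := by exact_mod_cast hq
  have hq0 : (0 : ℝ) < q := by linarith
  have hL2000' : 2000 ≤ Real.log Q := ((le_max_left _ _).trans (le_max_left _ _)).trans hLm
  have hL3C' : 3 ^ C₁ ≤ Real.log Q := ((le_max_right _ _).trans (le_max_left _ _)).trans hLm
  have hL3K' : 3 ^ K ≤ Real.log Q := ((le_max_left _ _).trans (le_max_right _ _)).trans hLm
  have hL2K' : 2 ^ Ks ≤ Real.log Q := ((le_max_right _ _).trans (le_max_right _ _)).trans hLm
  have hlY6 : Real.log Y ≤ Real.log (6 * Y) := Real.log_le_log hY0 (by linarith)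
  have hl61 : 1 ≤ Real.log (6 * Y) := by linarith
  have hz11 : Real.log (6 * Y) ^ B₁ ≤ z :=
    (pow_le_pow_right₀ hl61 ((le_max_left _ _).trans (le_max_left _ _))).trans hz1
  have hz12 : Real.log (6 * Y) ^ B₂ ≤ z :=
    (pow_le_pow_right₀ hl61 ((le_max_right _ _).trans (le_max_left _ _))).trans hz1
  have hz13 : Real.log (6 * Y) ^ B₃ ≤ z :=
    (pow_le_pow_right₀ hl61 ((le_max_left _ _).trans (le_max_right _ _))).trans hz1
  have hz14 : Real.log (6 * Y) ^ B₄ ≤ z :=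
    (pow_le_pow_right₀ hl61 ((le_max_right _ _).trans (le_max_right _ _))).trans hz1
  -- `Q` is large
  have hQM : M ≤ Q := by
    have h1 : (M : ℝ) ≤ Q := by
      calc (M : ℝ) = ((M : ℝ) ^ (3 : ℕ)) ^ (1 / 3 : ℝ) := by
            rw [← Real.rpow_natCast, ← Real.rpow_mul (Nat.cast_nonneg _)]
            norm_num
        _ ≤ (Y : ℝ) ^ (1 / 3 : ℝ) := by
            apply Real.rpow_le_rpow (by positivity) _ (by norm_num)
            exact_mod_cast hYM
        _ ≤ (Y : ℝ) ^ (1 / 3 + ρ) := Real.rpow_le_rpow_of_exponent_le hYr1 (by linarith)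
        _ ≤ q * (Y : ℝ) ^ (1 / 3 + ρ) := le_mul_of_one_le_left (by positivity) hq1
        _ ≤ Q := hqQ
    exact_mod_cast h1
  obtain ⟨L, hLd⟩ : ∃ L, L = Real.log Q := ⟨_, rfl⟩
  rw [← hLd] at hL2000' hL3C' hL3K' hL2K' hLY hl6 hVQ
  have hL0 : 0 < L := by linarith
  have hL1 : 1 ≤ L := by linarith
  have hLCY : L ^ C ≤ (Y : ℝ) ^ (ρ / 2) := (pow_le_pow_left₀ hL0.le hLY C).trans hLC
  -- the range of the moduli
  have hrange : ∀ q' : ℕ, (q' : ℝ) ≤ q * L ^ C → (q' : ℝ) * (Y : ℝ) ^ (1 / 3 + ρ / 2) ≤ Q := by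
    intro q' h
    calc (q' : ℝ) * (Y : ℝ) ^ (1 / 3 + ρ / 2) ≤ (q * L ^ C) * (Y : ℝ) ^ (1 / 3 + ρ / 2) := by gcongr
      _ ≤ (q * (Y : ℝ) ^ (ρ / 2)) * (Y : ℝ) ^ (1 / 3 + ρ / 2) := by gcongr
      _ = q * (Y : ℝ) ^ (1 / 3 + ρ) := by
          rw [mul_assoc, ← Real.rpow_add hY0]
          congr 2
          ring
      _ ≤ Q := hqQ
  have hrange2 : ∀ q' : ℕ, (q' : ℝ) ≤ q * L ^ C → (q' : ℝ) ≤ (Q : ℝ) ^ (7 / 10 - (1 / 30 + ρ / 2)) := by
    intro q' h
    have h1 := hrange q' h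
    have h2 : (q' : ℝ) * (Q : ℝ) ^ (1 / 3 + ρ / 2) ≤ Q := by
      refine le_trans ?_ h1
      have : (Q : ℝ) ^ (1 / 3 + ρ / 2) ≤ (Y : ℝ) ^ (1 / 3 + ρ / 2) :=
        Real.rpow_le_rpow hQ0.le hQYr (by positivity)
      gcongr
    have h3 : (Q : ℝ) ^ (7 / 10 - (1 / 30 + ρ / 2)) * (Q : ℝ) ^ (1 / 3 + ρ / 2) = Q := by
      rw [← Real.rpow_add hQ0]
      have : 7 / 10 - (1 / 30 + ρ / 2) + (1 / 3 + ρ / 2) = 1 := by ring
      rw [this, Real.rpow_one]
    have h4 : (0 : ℝ) < (Q : ℝ) ^ (1 / 3 + ρ / 2) := by positivity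
    refine le_of_mul_le_mul_right ?_ h4
    rw [h3]
    exact h2
  have hqself : (q : ℝ) ≤ q * L ^ C := le_mul_of_one_le_right hq0.le (one_le_pow₀ hL1)
  have hqLC : (q : ℝ) * L ^ C ≤ Q := by
    calc (q : ℝ) * L ^ C ≤ q * (Y : ℝ) ^ (ρ / 2) := by gcongr
      _ ≤ q * (Y : ℝ) ^ (1 / 3 + ρ) := by
          have : (Y : ℝ) ^ (ρ / 2) ≤ (Y : ℝ) ^ (1 / 3 + ρ) :=
            Real.rpow_le_rpow_of_exponent_le hYr1 (by linarith)
          gcongr
      _ ≤ Q := hqQ
  have h6Q : ∀ n, n ≤ 6 * Y → ‖GZ z n‖ ≤ L ^ 2 := by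
    have h1 := (hY₁ Y hYY₁ z hz11 hz2 q Q (hrange q hqself) hQY).1
    rw [← hLd] at h1
    exact h1
  -- the length of the initial segments
  obtain ⟨N, hN⟩ : ∃ N, N = V + Q := ⟨_, rfl⟩
  have hNQ : Q ≤ N := by omega
  have hNr : (Q : ℝ) ≤ N := by exact_mod_cast hNQ
  have hN0 : (0 : ℝ) < N := by linarith
  have hlN1 : L ≤ Real.log N := by
    rw [hLd]
    exact Real.log_le_log hQ0 hNr
  have hlN2 : Real.log N ≤ 3 * L := by
    refine le_trans (Real.log_le_log hN0 ?_) hl6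
    have : N ≤ 6 * Y := by omega
    exact_mod_cast this
  have hlN3 : Real.log N ≤ 2 * Real.log Y := by
    have h1 : (N : ℝ) ≤ 3 * Y := by
      have : N ≤ 3 * Y := by omega
      exact_mod_cast this
    refine (Real.log_le_log hN0 h1).trans ?_
    rw [Real.log_mul (by norm_num) hY0.ne']
    have : Real.log 3 ≤ 3 := (Real.log_le_sub_one_of_pos (by norm_num)).trans (by norm_num)
    linarith
  have hNle : (N : ℝ) ≤ 2 * (Q * L ^ D) := by
    have h1 : (N : ℝ) = V + Q := by rw [hN]; push_cast; ring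
    have h2 : (Q : ℝ) ≤ Q * L ^ D := le_mul_of_one_le_right hQ0.le (one_le_pow₀ hL1)
    linarith
  have hfin := hcore (fun b => LA (V + b)) (GZ z) A C C₃ L Y (3 * Y) Q q ((a : ZMod q) - (V : ZMod q))
    rfl hQ1 hQY hLd (by linarith) hqLC
    (by
      have e1 : ∀ b ∈ Icc 1 Q, ‖LA (V + b)‖ ^ 2 ≤ (3 * L) ^ 2 := by
        intro b hb
        rw [mem_Icc] at hb
        apply pow_le_pow_left₀ (norm_nonneg _)
        refine (norm_LA_le (X := N) (by omega)).trans hlN2
      refine (sum_le_sum e1).trans ?_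
      rw [sum_const, Nat.card_Icc, nsmul_eq_mul, Nat.add_sub_cancel]
      apply mul_le_mul_of_nonneg_left _ hQ0.le
      calc (3 * L) ^ 2 = 9 * L ^ 2 := by ring
        _ ≤ L * L ^ 2 := by
            apply mul_le_mul_of_nonneg_right (by linarith) (by positivity)
        _ = L ^ 3 := by ring
        _ ≤ L ^ 8 := pow_le_pow_right₀ hL1 (by norm_num))
    (fun n hn => h6Q n (by omega))
    (fun k h β hk1 hk2 hk3 hk4 => by
      have hpw : Real.log N ^ C₁ ≤ L ^ C := by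
        calc Real.log N ^ C₁ ≤ (3 * L) ^ C₁ := pow_le_pow_left₀ (by linarith) hlN2 _
          _ = 3 ^ C₁ * L ^ C₁ := mul_pow _ _ _
          _ ≤ L * L ^ C₁ := by
              apply mul_le_mul_of_nonneg_right hL3C' (by positivity)
          _ = L ^ C := by rw [hCd]; ring
      have hqN : (q : ℝ) ≤ (N : ℝ) ^ (7 / 10 - (1 / 30 + ρ / 2)) := by
        by_cases hexp : 0 ≤ 7 / 10 - (1 / 30 + ρ / 2)
        · exact (hrange2 q hqself).trans (Real.rpow_le_rpow hQ0.le hNr hexp)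
        · exfalso
          push Not at hexp
          have e1 := hrange2 q hqself
          have e2 : (Q : ℝ) ^ (7 / 10 - (1 / 30 + ρ / 2)) < 1 := by
            apply Real.rpow_lt_one_of_one_lt_of_neg _ hexp
            by_contra hcon
            push Not at hcon
            have : Real.log Q ≤ 0 := Real.log_nonpos hQ0.le hcon
            rw [← hLd] at this
            linarith
          linarith
      have hk0 : (0 : ℝ) ≤ k := Nat.cast_nonneg _
      have c1 : Real.log N ^ C₁ ≤ k := hpw.trans hk1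
      have c2 : (q : ℝ) * k * Real.log N ^ C₁ ≤ N := by
        calc (q : ℝ) * k * Real.log N ^ C₁ ≤ q * k * L ^ C := by gcongr
          _ ≤ Q := hk2
          _ ≤ N := hNr
      have m1 := hmin N (by omega) q hqN k h β c1 c2 hk3 hk4 N le_rfl
      have m2 := hmin N (by omega) q hqN k h β c1 c2 hk3 hk4 V (by omega)
      have m3 := P_shift (q := q) (Q := Q) (V := V) β
      rw [← hN] at m3
      refine m3.trans ?_
      have m4 : (N : ℝ) ^ 2 / (q * Real.log N ^ (A + 2 * D + 11)) ≤ (Q : ℝ) ^ 2 / (q * L ^ (A + 9)) * (4 / L ^ 2) := by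
        calc (N : ℝ) ^ 2 / (q * Real.log N ^ (A + 2 * D + 11)) ≤
            (2 * (Q * L ^ D)) ^ 2 / (q * L ^ (A + 2 * D + 11)) := by
              gcongr
          _ = (Q : ℝ) ^ 2 / (q * L ^ (A + 9)) * (4 / L ^ 2) := by
              rw [show A + 2 * D + 11 = (A + 9) + D + D + 2 by ring, pow_add, pow_add, pow_add L (A + 9)]
              field_simp
              ring
      have m5 : 4 / L ^ 2 ≤ 1 / 4 := by
        rw [div_le_div_iff₀ (by positivity) (by norm_num)]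
        nlinarith
      have m6 : 0 ≤ (Q : ℝ) ^ 2 / (q * L ^ (A + 9)) := by positivity
      have m7 : (Q : ℝ) ^ 2 / (q * L ^ (A + 9)) * (4 / L ^ 2) ≤ (Q : ℝ) ^ 2 / (q * L ^ (A + 9)) * (1 / 4) :=
        mul_le_mul_of_nonneg_left m5 m6
      linarith)
    (fun q' _ hq' => by
      obtain ⟨-, B, hBc, hB⟩ := hY₁ Y hYY₁ z hz11 hz2 q' Q (hrange q' hq') hQY
      rw [← hLd] at hBc hB
      refine ⟨B, hBc, fun η hη S hS => ?_⟩
      have := hB η hη S hS
      rw [hA₁] at this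
      exact this)
    (fun q' _ hq' η => by
      have := hY₂ Y hYY₂ z hz12 hz2 q' Q (hrange q' hq') hQY η
      rw [← hLd, hA₁] at this
      refine le_trans (le_of_eq ?_) this
      refine sum_congr rfl fun u _ => ?_
      rw [sum_filter]
      refine sum_congr rfl fun l _ => ?_
      by_cases hl : IsUnit l
      · rw [if_pos hl, if_neg (not_not.2 hl)]
      · rw [if_neg hl, if_pos hl])
    (fun j hj χ => by
      have hq' : (((j + 1) * q : ℕ) : ℝ) ≤ q * L ^ C := by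
        rw [Nat.cast_mul]
        calc ((j + 1 : ℕ) : ℝ) * q ≤ L ^ C * q := by gcongr
          _ = q * L ^ C := mul_comm _ _
      have hq'1 : 1 ≤ (j + 1) * q := Nat.mul_pos (Nat.succ_pos j) hq
      have hq'Y : (j + 1) * q ≤ Y := by
        have h1 := hrange _ hq'
        have h2 : 1 ≤ (Y : ℝ) ^ (1 / 3 + ρ / 2) := Real.one_le_rpow hYr1 (by positivity)
        have h3 : (((j + 1) * q : ℕ) : ℝ) ≤ Y := by
          calc (((j + 1) * q : ℕ) : ℝ) ≤ (((j + 1) * q : ℕ) : ℝ) * (Y : ℝ) ^ (1 / 3 + ρ / 2) :=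
                le_mul_of_one_le_right (Nat.cast_nonneg _) h2
            _ ≤ Q := h1
            _ ≤ Y := hQYr
        exact_mod_cast h3
      have hpow : (Q : ℝ) ^ 2 / L ^ (2 * (C₃ + A₁ + 4)) = ((Q : ℝ) / L ^ (C₃ + (A + 2 * C + 9) + 4)) ^ 2 := by
        rw [hA₁, div_pow, ← pow_mul, mul_comm (C₃ + (A + 2 * C + 9) + 4) 2]
      by_cases hc : (χ.conductor : ℝ) ≤ L ^ (K + 1)
      · left
        intro η hη
        have := hY₄ Y hYY₄ z hz14 hz2 ((j + 1) * q) Q (hrange _ hq') hQY χ (by rw [← hLd]; exact hc) η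
          (by rw [← hLd]; exact hη)
        rw [← hLd, hpow] at this
        exact this
      push Not at hc
      have hc1 : 1 < χ.conductor := by
        have h1 : (1 : ℝ) ≤ L ^ (K + 1) := one_le_pow₀ hL1
        have h2 : (1 : ℝ) < χ.conductor := by linarith
        exact_mod_cast h2
      have hdvd := DirichletCharacter.conductor_dvd_level χ
      have hcond : Real.log Y ^ K < (χ.conductor : ℝ) := by
        refine lt_of_le_of_lt ?_ hc
        have h3L : Real.log Y ≤ 3 * L := hlY6.trans hl6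
        calc Real.log Y ^ K ≤ (3 * L) ^ K := pow_le_pow_left₀ (by linarith) h3L K
          _ = 3 ^ K * L ^ K := mul_pow _ _ _
          _ ≤ L * L ^ K := by
              apply mul_le_mul_of_nonneg_right hL3K' (by positivity)
          _ = L ^ (K + 1) := by ring
      by_cases hE : χ.conductor ∈ E1 (2 * (C₃ + A₁ + 4) + 2) (min (ρ / 2 / 2) (1 / 3)) K Y
      · right
        intro a' ha' η hη
        have hgcd : Real.log Y ^ (Ks + 1) * (Nat.gcd (a' + (V : ZMod ((j + 1) * q))).val χ.conductor : ℝ) <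
            (χ.conductor : ℝ) :=
          lift_ex hE (by omega) (Nat.succ_pos j) (hj.trans (pow_le_pow_left₀ hL0.le hLY C)) hdvd
            (cvu_mod a' ha') hreg
        have hgcd2 : Real.log N ^ Ks * (Nat.gcd (a' + (V : ZMod ((j + 1) * q))).val (χ⁻¹).conductor : ℝ) <
            ((χ⁻¹).conductor : ℝ) := by
          rw [DirichletCharacter.conductor_inv]
          refine lt_of_le_of_lt ?_ hgcd
          apply mul_le_mul_of_nonneg_right _ (Nat.cast_nonneg _)
          calc Real.log N ^ Ks ≤ (2 * Real.log Y) ^ Ks := pow_le_pow_left₀ (by linarith) hlN3 _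
            _ = 2 ^ Ks * Real.log Y ^ Ks := mul_pow _ _ _
            _ ≤ Real.log Y * Real.log Y ^ Ks := by
                apply mul_le_mul_of_nonneg_right (by linarith) (pow_nonneg (by linarith) _)
            _ = Real.log Y ^ (Ks + 1) := by ring
        have hqN : (((j + 1) * q : ℕ) : ℝ) ≤ (N : ℝ) ^ (7 / 10 - (-(1 / 10) + 1 / 30) : ℝ) := by
          refine (hrange2 _ hq').trans ?_
          calc (Q : ℝ) ^ (7 / 10 - (1 / 30 + ρ / 2)) ≤ (Q : ℝ) ^ (7 / 10 - (-(1 / 10) + 1 / 30) : ℝ) :=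
                Real.rpow_le_rpow_of_exponent_le hQr1 (by linarith)
            _ ≤ _ := Real.rpow_le_rpow hQ0.le hNr (by norm_num)
        have hηN : |η| ≤ Real.log N ^ (C + D + 1) / N := by
          refine hη.trans ?_
          rw [div_le_div_iff₀ hQ0 hN0]
          calc L ^ C * N ≤ L ^ C * (2 * (Q * L ^ D)) := by gcongr
            _ = 2 * (L ^ (C + D) * Q) := by ring
            _ ≤ L * (L ^ (C + D) * Q) := by
                apply mul_le_mul_of_nonneg_right (by linarith) (by positivity)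
            _ = L ^ (C + D + 1) * Q := by ring
            _ ≤ Real.log N ^ (C + D + 1) * Q := by gcongr
        have n1 := hs N (by omega) ((j + 1) * q) hqN χ⁻¹ _ hgcd2 η hηN N le_rfl
        have n2 := hs N (by omega) ((j + 1) * q) hqN χ⁻¹ _ hgcd2 η hηN V (by omega)
        have n3 := cvu_sh (q := (j + 1) * q) (Q := Q) (V := V) η χ⁻¹ a'
        rw [← hN] at n3
        refine n3.trans ?_
        have n4 : (N : ℝ) / Real.log N ^ (2 * C₃ + A₁ + 3 + D + 1) ≤
            Q / L ^ (2 * C₃ + (A + 2 * C + 9) + 3) * (2 / L) := by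
          calc (N : ℝ) / Real.log N ^ (2 * C₃ + A₁ + 3 + D + 1) ≤
              (2 * (Q * L ^ D)) / L ^ (2 * C₃ + A₁ + 3 + D + 1) := by gcongr
            _ = Q / L ^ (2 * C₃ + (A + 2 * C + 9) + 3) * (2 / L) := by
                rw [hA₁, pow_succ, pow_add L (2 * C₃ + (A + 2 * C + 9) + 3)]
                field_simp
        have n5 : 2 / L ≤ 1 / 2 := by
          rw [div_le_div_iff₀ hL0 (by norm_num)]
          linarith
        have n6 : 0 ≤ (Q : ℝ) / L ^ (2 * C₃ + (A + 2 * C + 9) + 3) := by positivity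
        have n7 := mul_le_mul_of_nonneg_left n5 n6
        linarith
      · left
        intro η hη
        have hnB : ¬ (∃ ψ : DirichletCharacter ℂ χ.conductor,
            BadW (2 * (C₃ + A₁ + 4) + 2) (min (ρ / 2 / 2) (1 / 3)) Y χ.conductor ψ ∨
            BadW (2 * (C₃ + A₁ + 4) + 2) (min (ρ / 2 / 2) (1 / 3)) (2 * Y) χ.conductor ψ) := by
          intro hex
          apply hE
          unfold E1
          rw [mem_filter, mem_Icc]
          have hle := Nat.le_of_dvd hq'1 hdvd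
          exact ⟨⟨by omega, by omega⟩, hcond, hex⟩
        rw [not_exists] at hnB
        have hnB' := hnB χ.primitiveCharacter
        rw [not_or] at hnB'
        have := hY₃ Y hYY₃ z hz13 hz2 ((j + 1) * q) Q (hrange _ hq') hQY χ hc1 hnB'.1 hnB'.2 η
          (by rw [← hLd]; exact hη)
        rw [← hLd, hpow] at this
        exact this)
  rw [← hLd]
  refine le_trans (le_of_eq ?_) hfin
  refine sum_congr ?_ fun _ _ => rfl
  ext n
  rw [mem_filter, mem_filter]
  refine and_congr_right fun _ => ?_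
  rw [Nat.cast_add, eq_sub_iff_add_eq]

end Pool.Agent.H295.PP
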